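import Pool.Agent.V5helper78.IK.Stm

set_option autoImplicit false

namespace Pool.Agent.V5helper4.IK

open MeasureTheory Set Filter Topology
open scoped ENNReal InnerProductSpace
open Pool.Agent.V5helper78.IK

lemma gauss_int {n : ℕ} {b : ℝ} (hb : 0 < b) :
    Integrable (fun x : E n => Real.exp (-b * ‖x‖ ^ 2)) := by
  by_contra h
  have h1 := integral_undef h
  rw [GaussianFourier.integral_rexp_neg_mul_sq_norm hb] at h1
  have h2 : 0 < (Real.pi / b) ^ (Module.finrank ℝ (E n) / 2 : ℝ) :=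
    Real.rpow_pos_of_pos (div_pos Real.pi_pos hb) _
  linarith

/-- the dominating function -/
lemma bound {n : ℕ} {g : E n → ℝ} (hg : Nm g) : ∃ b : ℝ, 0 < b ∧ ∀ (A : E n →L[ℝ] E n) (x : E n),
    ‖Real.exp (-(En g A x))‖ ≤ Real.exp (-b * ‖x‖ ^ 2) := by
  obtain ⟨c, hc, h⟩ := hg.low
  refine ⟨c ^ 2, by positivity, fun A x => ?_⟩
  rw [Real.norm_eq_abs, Real.abs_exp, Real.exp_le_exp]
  unfold En
  have h1 : (c * ‖x‖) ^ 2 ≤ g x ^ 2 := by
    have h2 : 0 ≤ c * ‖x‖ := by positivity
    exact pow_le_pow_left₀ h2 (h x) 2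
  nlinarith [sq_nonneg ‖A x‖]

lemma cont_En {n : ℕ} {g : E n → ℝ} (hg : Nm g) (A : E n →L[ℝ] E n) :
    Continuous fun x => Real.exp (-(En g A x)) := by
  unfold En
  have := hg.cont
  fun_prop

theorem t_CON : S_CON := by
  intro n g hg
  obtain ⟨b, hb, h⟩ := bound hg
  unfold F
  refine continuous_of_dominated (bound := fun x => Real.exp (-b * ‖x‖ ^ 2)) ?_ ?_ (gauss_int hb) ?_
  · intro A
    exact (cont_En hg A).aestronglyMeasurable
  · intro A
    exact Eventually.of_forall fun x => h A x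
  · refine Eventually.of_forall fun x => ?_
    unfold En
    have h1 : Continuous fun A : E n →L[ℝ] E n => A x :=
      (ContinuousLinearMap.apply ℝ (E n) x).continuous
    fun_prop

end Pool.Agent.V5helper4.IK
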