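import Pool.Agent.V5helper4.IK.CONT

set_option autoImplicit false

namespace Pool.Agent.V5helper4.IK

open MeasureTheory Set Filter Topology
open scoped ENNReal InnerProductSpace
open Pool.Agent.V5helper78.IK

theorem t_DEC : S_DEC := by
  intro n g hg η hη
  by_contra hcon
  push Not at hcon
  choose A hA using fun m : ℕ => hcon ((m : ℝ) + 1)
  have hA0 : ∀ m, 0 < ‖A m‖ := fun m => lt_of_lt_of_le (by positivity) (hA m).1
  let B : ℕ → E n →L[ℝ] E n := fun m => ‖A m‖⁻¹ • A m
  have hB : ∀ m, B m ∈ Metric.sphere (0 : E n →L[ℝ] E n) 1 := by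
    intro m
    rw [mem_sphere_zero_iff_norm]
    show ‖‖A m‖⁻¹ • A m‖ = 1
    rw [norm_smul, norm_inv, norm_norm, inv_mul_cancel₀ (hA0 m).ne']
  haveI : ProperSpace (E n →L[ℝ] E n) := FiniteDimensional.proper ℝ _
  obtain ⟨L, hL, φ, hφ, hlim⟩ := (isCompact_sphere (0 : E n →L[ℝ] E n) 1).tendsto_subseq hB
  have hL0 : L ≠ 0 := by
    intro h
    rw [h] at hL
    simp at hL
  -- outside the kernel
  have hnull : volume ((LinearMap.ker (L : E n →ₗ[ℝ] E n) : Submodule ℝ (E n)) : Set (E n)) = 0 := by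
    apply Measure.addHaar_submodule
    intro h
    apply hL0
    ext x
    have : x ∈ LinearMap.ker (L : E n →ₗ[ℝ] E n) := by rw [h]; trivial
    rw [LinearMap.mem_ker] at this
    have h2 : L x = 0 := this
    rw [h2]
    simp
  have hae : ∀ᵐ x : E n, L x ≠ 0 := by
    have h1 : ∀ᵐ x : E n, x ∉ ((LinearMap.ker (L : E n →ₗ[ℝ] E n) : Submodule ℝ (E n)) : Set (E n)) :=
      measure_eq_zero_iff_ae_notMem.mp hnull
    filter_upwards [h1] with x hx h2
    apply hx
    show x ∈ LinearMap.ker (L : E n →ₗ[ℝ] E n)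
    rw [LinearMap.mem_ker]
    exact h2
  obtain ⟨b, hb, hbd⟩ := bound hg
  have hT : Tendsto (fun m => ∫ x, Real.exp (-(En g (A (φ m)) x))) atTop
      (𝓝 (∫ _x : E n, (0 : ℝ))) := by
    refine tendsto_integral_of_dominated_convergence (fun x => Real.exp (-b * ‖x‖ ^ 2)) ?_
      (gauss_int hb) ?_ ?_
    · intro m
      exact (cont_En hg _).aestronglyMeasurable
    · intro m
      exact Eventually.of_forall fun x => hbd _ x
    · filter_upwards [hae] with x hx
      have h1 : Tendsto (fun m => ‖B (φ m) x‖) atTop (𝓝 ‖L x‖) := by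
        have h2 : Tendsto (fun m => B (φ m) x) atTop (𝓝 (L x)) :=
          ((ContinuousLinearMap.apply ℝ (E n) x).continuous.tendsto L).comp hlim
        exact h2.norm
      have h3 : Tendsto (fun m => ‖A (φ m)‖) atTop atTop := by
        refine tendsto_atTop_mono (fun m => ?_) tendsto_natCast_atTop_atTop
        have h4 := (hA (φ m)).1
        have h5 : (m : ℝ) ≤ φ m := by exact_mod_cast hφ.id_le m
        linarith
      have h4 : Tendsto (fun m => ‖A (φ m) x‖) atTop atTop := by
        have h5 : ∀ m, ‖A (φ m) x‖ = ‖A (φ m)‖ * ‖B (φ m) x‖ := by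
          intro m
          show _ = ‖A (φ m)‖ * ‖(‖A (φ m)‖⁻¹ • A (φ m)) x‖
          rw [ContinuousLinearMap.smul_apply, norm_smul, norm_inv, norm_norm, ← mul_assoc,
            mul_inv_cancel₀ (hA0 _).ne', one_mul]
        simp only [h5]
        exact h3.atTop_mul_pos (norm_pos_iff.mpr hx) h1
      have h6 : Tendsto (fun m => -(En g (A (φ m)) x)) atTop atBot := by
        apply tendsto_neg_atTop_atBot.comp
        unfold En
        refine tendsto_atTop_add_const_left _ _ ?_
        exact (tendsto_pow_atTop (by norm_num : (2 : ℕ) ≠ 0)).comp h4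
      exact Real.tendsto_exp_atBot.comp h6
  rw [integral_zero] at hT
  have h7 : ∀ m, η ≤ ∫ x, Real.exp (-(En g (A (φ m)) x)) := fun m => (hA (φ m)).2.le
  have h8 := ge_of_tendsto' hT h7
  linarith

end Pool.Agent.V5helper4.IK
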